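import Pool.Agent.H58.BadA3

namespace Pool.Agent.Results.MP_39ae23_nt.NoZeroOne
open Pool.Agent.H58.Bad

theorem result : ¬ ∀ (m n d : ℕ), 1 ≤ m → 1 ≤ n → ∀ (A : Matrix (Fin m) (Fin n) ℝ) (x : Tor m)
    (φ : Tor d →+ Tor m), Continuous φ → Function.Injective φ →
    cosetMeasure x φ (Bad A) = 0 ∨ cosetMeasure x φ (Bad A) = 1 := by
  intro h
  obtain ⟨A, x, φ, h1, h2, -, -, h3, h4, -⟩ := H58Bad.main
  rcases h 2 1 1 (by norm_num) le_rfl A x φ h1 h2 with e | e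
  · exact h3.ne' e
  · exact h4.ne e

end Pool.Agent.Results.MP_39ae23_nt.NoZeroOne
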